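import Mathlib

/-!
# SO-5: real numbers near given ones which are linearly independent over `ℚ`
-/

set_option autoImplicit false

namespace Pool.Agent.Helper28.SO

/-- SO-5. -/
theorem exists_generic_near {ι κ : Type*} [Finite ι] [Finite κ] (f : ι → ℝ)
    (hf : LinearIndependent ℚ f) (α : κ → ℝ) (ε : ℝ) (hε : 0 < ε) :
    ∃ α' : κ → ℝ, (∀ c, |α' c - α c| < ε) ∧ LinearIndependent ℚ (Sum.elim f α') := by
  classical
  revert α
  refine Finite.induction_empty_option (P := fun κ => ∀ α : κ → ℝ,
    ∃ α' : κ → ℝ, (∀ c, |α' c - α c| < ε) ∧ LinearIndependent ℚ (Sum.elim f α')) ?_ ?_ ?_ κ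
  · intro κ₁ κ₂ e h α
    obtain ⟨α', h1, h2⟩ := h (α ∘ e)
    refine ⟨α' ∘ e.symm, fun c => ?_, ?_⟩
    · have h3 := h1 (e.symm c)
      simpa using h3
    · have h3 := h2.comp (Sum.map id e.symm)
        (Sum.map_injective.2 ⟨Function.injective_id, e.symm.injective⟩)
      have h4 : Sum.elim f (α' ∘ e.symm) = Sum.elim f α' ∘ Sum.map id e.symm := by
        funext x
        rcases x with x | x <;> rfl
      rw [h4]
      exact h3
  · intro α
    refine ⟨PEmpty.elim, fun c => c.elim, ?_⟩
    have h3 := hf.comp (Sum.elim id PEmpty.elim : ι ⊕ PEmpty → ι) (by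
      intro x y hxy
      rcases x with x | x
      · rcases y with y | y
        · exact congrArg Sum.inl hxy
        · exact y.elim
      · exact x.elim)
    have h4 : (Sum.elim f PEmpty.elim : ι ⊕ PEmpty → ℝ) = f ∘ (Sum.elim id PEmpty.elim) := by
      funext x
      rcases x with x | x
      · rfl
      · exact x.elim
    rw [h4]
    exact h3
  · intro κ _ h α
    obtain ⟨β, h1, h2⟩ := h (α ∘ some)
    have : Fintype κ := Fintype.ofFinite κ
    have : Fintype ι := Fintype.ofFinite ι
    have hc : (Submodule.span ℚ (Set.range (Sum.elim f β)) : Set ℝ).Countable := by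
      have h3 : (Submodule.span ℚ (Set.range (Sum.elim f β)) : Set ℝ) =
          Set.range (fun c : ι ⊕ κ → ℚ => ∑ i, c i • (Sum.elim f β) i) := by
        ext x
        rw [SetLike.mem_coe, Submodule.mem_span_range_iff_exists_fun]
        rfl
      rw [h3]
      exact Set.countable_range _
    obtain ⟨y, hy1, hy2⟩ := (hc.dense_compl ℝ).exists_dist_lt (α none) hε
    refine ⟨fun o => Option.elim o y β, ?_, ?_⟩
    · intro o
      rcases o with _ | c
      · rw [Real.dist_eq] at hy2
        rw [abs_sub_comm]
        exact hy2
      · exact h1 c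
    · have h3 := h2.option hy1
      have h4 := h3.comp (fun x : ι ⊕ Option κ => (match x with
        | Sum.inl i => some (Sum.inl i)
        | Sum.inr none => none
        | Sum.inr (some c) => some (Sum.inr c) : Option (ι ⊕ κ))) (by
          intro x y hxy
          rcases x with x | (_ | x) <;> rcases y with y | (_ | y) <;> simp_all)
      have h5 : Sum.elim f (fun o => Option.elim o y β) = (fun o => Option.casesOn' o y
          (Sum.elim f β)) ∘ (fun x : ι ⊕ Option κ => (match x with
        | Sum.inl i => some (Sum.inl i)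
        | Sum.inr none => none
        | Sum.inr (some c) => some (Sum.inr c) : Option (ι ⊕ κ))) := by
        funext x
        rcases x with x | (_ | x) <;> rfl
      rw [h5]
      exact h4

end Pool.Agent.Helper28.SO
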